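import Mathlib

/-!
For every integer `n ≥ 2`, the number `n (2n+1) C(2n,n)` divides
`∑_{k<n} (11k+3) C(2k,k)^2 C(3k,k) 64^(n-1-k)`.

Proof outline.  Let `kap n j = 4^j C(n - 1/2, j)` (an integer) and
`D n = ∑_{j<n} (-4)^(n-j) C(2n+j-1, j) kap n j`.  A WZ pair gives
`(2n+1) D(n+1) = 32 n D(n) - (4/3) (11n+3) C(2n,n) C(3n,n)`, hence
`8 S_n = -3 n C(2n,n) D(n)`.  Summation by parts shows `(2n+1) ∣ 3 D(n)`, and `8 ∣ D(n)` for
`n ≥ 2` since `kap n j` is even for `j ≥ 1`.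
-/

namespace Pool.Agent.Results.MP_550cbf_nt.SunDivisibility

open Finset

/-- `kap n j = 4^j * C(n - 1/2, j)`, defined by Pascal's recursion. -/
def kap : ℕ → ℕ → ℤ
  | 0, j => (-1) ^ j * (Nat.centralBinom j : ℤ)
  | _ + 1, 0 => 1
  | n + 1, j + 1 => kap n (j + 1) + 4 * kap n j

theorem kap_zero_right (n : ℕ) : kap n 0 = 1 := by
  cases n with
  | zero => simp [kap]
  | succ n => simp [kap]

theorem kap_succ_succ (n j : ℕ) : kap (n + 1) (j + 1) = kap n (j + 1) + 4 * kap n j := by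
  simp [kap]

/-- `(j+1) kap n (j+1) = (4n - 2 - 4j) kap n j`. -/
theorem kap_step (n : ℕ) : ∀ j : ℕ,
    ((j : ℤ) + 1) * kap n (j + 1) = (4 * n - 2 - 4 * j) * kap n j := by
  induction n with
  | zero =>
    intro j
    have h := Nat.succ_mul_centralBinom_succ j
    have h' : ((j : ℤ) + 1) * (Nat.centralBinom (j + 1) : ℤ)
        = 2 * (2 * (j : ℤ) + 1) * (Nat.centralBinom j : ℤ) := by exact_mod_cast h
    simp only [kap, pow_succ]
    push_cast
    linear_combination (-(-1) ^ j) * h'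
  | succ n ih =>
    intro j
    cases j with
    | zero =>
      have h := ih 0
      rw [kap_succ_succ, kap_zero_right, kap_zero_right]
      rw [kap_zero_right] at h
      push_cast at h ⊢
      linear_combination h
    | succ j =>
      have h1 := ih (j + 1)
      have h0 := ih j
      rw [kap_succ_succ n (j + 1), kap_succ_succ n j]
      push_cast at h1 h0 ⊢
      linear_combination h1 + 4 * h0

/-- `(2n+1-2j) kap (n+1) j = (2n+1) kap n j`. -/
theorem kap_up (n : ℕ) (j : ℕ) :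
    (2 * (n : ℤ) + 1 - 2 * j) * kap (n + 1) j = (2 * n + 1) * kap n j := by
  cases j with
  | zero => rw [kap_zero_right, kap_zero_right]; push_cast; ring
  | succ j =>
    have h := kap_step n j
    rw [kap_succ_succ]
    push_cast
    linear_combination (-2) * h

/-- `(j+1) kap (n+1) (j+1) = 2 (2n+1) kap n j`. -/
theorem kap_diag (n : ℕ) (j : ℕ) :
    ((j : ℤ) + 1) * kap (n + 1) (j + 1) = 2 * (2 * n + 1) * kap n j := by
  have h := kap_step n j
  rw [kap_succ_succ]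
  linear_combination h

theorem kap_even (n : ℕ) : ∀ j : ℕ, (2 : ℤ) ∣ kap n (j + 1) := by
  induction n with
  | zero =>
    intro j
    have h := Nat.two_dvd_centralBinom_succ j
    have h' : (2 : ℤ) ∣ (Nat.centralBinom (j + 1) : ℤ) := by exact_mod_cast h
    simp only [kap]
    exact Dvd.dvd.mul_left h' _
  | succ n ih =>
    intro j
    rw [kap_succ_succ]
    exact dvd_add (ih j) (Dvd.dvd.mul_right (by norm_num) _)

/-- `kap n n = C(2n,n)`. -/
theorem kap_self (n : ℕ) : kap n n = (Nat.centralBinom n : ℤ) := by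
  induction n with
  | zero => simp [kap]
  | succ n ih =>
    have h := kap_diag n n
    rw [ih] at h
    have h2 := Nat.succ_mul_centralBinom_succ n
    have h2' : ((n : ℤ) + 1) * (Nat.centralBinom (n + 1) : ℤ)
        = 2 * (2 * (n : ℤ) + 1) * (Nat.centralBinom n : ℤ) := by exact_mod_cast h2
    have h3 : ((n : ℤ) + 1) * kap (n + 1) (n + 1)
        = ((n : ℤ) + 1) * (Nat.centralBinom (n + 1) : ℤ) := by rw [h, h2']
    have hn : ((n : ℤ) + 1) ≠ 0 := by positivity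
    exact mul_left_cancel₀ hn h3

/-- The integer sum `D n = ∑_{j<n} (-4)^(n-j) C(2n+j-1,j) kap n j`. -/
def D (n : ℕ) : ℤ :=
  ∑ j ∈ range n, (-4) ^ (n - j) * (Nat.choose (2 * n + j - 1) j : ℤ) * kap n j

/-- Relation between the binomials `C(2n+J+1, J)` and `C(2n+J-1, J)`. -/
theorem choose_rel1 (n J : ℕ) (hn : 1 ≤ n) :
    (Nat.choose (2 * n + 1 + J) J : ℚ) * ((2 * n) * (2 * n + 1))
      = (Nat.choose (2 * n + J - 1) J : ℚ) * ((2 * n + J) * (2 * n + J + 1)) := by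
  obtain ⟨m, rfl⟩ := Nat.exists_eq_add_of_le' hn
  have e0 : 2 * (m + 1) + J - 1 = 2 * m + 1 + J := by omega
  have e1 : 2 * (m + 1) + 1 + J = 2 * m + 1 + J + 1 + 1 := by omega
  rw [e0, e1]
  have h1 := Nat.choose_mul_succ_eq (2 * m + 1 + J) J
  have h2 := Nat.choose_mul_succ_eq (2 * m + 1 + J + 1) J
  have s1 : 2 * m + 1 + J + 1 - J = 2 * m + 2 := by omega
  have s2 : 2 * m + 1 + J + 1 + 1 - J = 2 * m + 3 := by omega
  rw [s1] at h1
  rw [s2] at h2
  have h1' : (Nat.choose (2 * m + 1 + J) J : ℚ) * (2 * m + 1 + J + 1)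
      = (Nat.choose (2 * m + 1 + J + 1) J : ℚ) * (2 * m + 2) := by exact_mod_cast h1
  have h2' : (Nat.choose (2 * m + 1 + J + 1) J : ℚ) * (2 * m + 1 + J + 1 + 1)
      = (Nat.choose (2 * m + 1 + J + 1 + 1) J : ℚ) * (2 * m + 3) := by exact_mod_cast h2
  push_cast
  linear_combination (-(2 * (m : ℚ) + 1 + J + 1 + 1)) * h1' - (2 * (m : ℚ) + 2) * h2'

theorem choose_rel2 (n J : ℕ) :
    (Nat.choose (2 * n + 1 + (J + 1)) (J + 1) : ℚ) * (J + 1)
      = (Nat.choose (2 * n + 1 + J) J : ℚ) * (2 * n + 2 + J) := by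
  have h := Nat.add_one_mul_choose_eq (2 * n + 1 + J) J
  have h' : ((2 * n + 1 + J : ℚ) + 1) * (Nat.choose (2 * n + 1 + J) J : ℚ)
      = (Nat.choose (2 * n + 1 + J + 1) (J + 1) : ℚ) * (J + 1) := by exact_mod_cast h
  have e : 2 * n + 1 + (J + 1) = 2 * n + 1 + J + 1 := by omega
  rw [e]
  linear_combination -h'

/-- Rational terms: `Y n j` is the `j`-th term of `D (n+1)`, `X n j` the `j`-th term of `D n`. -/
def X (n j : ℕ) : ℚ :=
  (-4) ^ (n - j) * (Nat.choose (2 * n + j - 1) j : ℚ) * (kap n j : ℚ)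

def Y (n j : ℕ) : ℚ :=
  (-4) ^ (n + 1 - j) * (Nat.choose (2 * n + 1 + j) j : ℚ) * (kap (n + 1) j : ℚ)

theorem Y_rel1 (n J : ℕ) (hn : 1 ≤ n) (hJ : J ≤ n) :
    Y n J * ((2 * n + 1 - 2 * J) * n) = -2 * X n J * ((2 * n + J) * (2 * n + J + 1)) := by
  have h1 := choose_rel1 n J hn
  have h2 : (2 * (n : ℚ) + 1 - 2 * J) * (kap (n + 1) J : ℚ) = (2 * n + 1) * (kap n J : ℚ) := by
    exact_mod_cast kap_up n J
  have e : n + 1 - J = (n - J) + 1 := by omega
  unfold X Y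
  rw [e, pow_succ]
  have hn1 : (2 * (n : ℚ) + 1) ≠ 0 := by positivity
  have key : (2 * (n : ℚ) + 1) * ((-4) ^ (n - J) * (-4) * (Nat.choose (2 * n + 1 + J) J : ℚ)
      * (kap (n + 1) J : ℚ) * ((2 * n + 1 - 2 * J) * n))
      = (2 * (n : ℚ) + 1) * (-2 * ((-4) ^ (n - J) * (Nat.choose (2 * n + J - 1) J : ℚ)
      * (kap n J : ℚ)) * ((2 * n + J) * (2 * n + J + 1))) := by
    linear_combination ((-4 : ℚ) ^ (n - J) * (-4) * (Nat.choose (2 * n + 1 + J) J : ℚ) * n
      * (2 * (n : ℚ) + 1)) * h2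
      + ((-4 : ℚ) ^ (n - J) * (-2) * (kap n J : ℚ) * (2 * (n : ℚ) + 1)) * h1
  exact mul_left_cancel₀ hn1 key

theorem Y_rel2 (n J : ℕ) (hJ : J ≤ n) :
    2 * ((J : ℚ) + 1) ^ 2 * Y n (J + 1) = -(2 * n + 2 + J) * (2 * n + 1 - 2 * J) * Y n J := by
  have h1 := choose_rel2 n J
  have h2 : ((J : ℚ) + 1) * (kap (n + 1) (J + 1) : ℚ)
      = (4 * ((n : ℚ) + 1) - 2 - 4 * J) * (kap (n + 1) J : ℚ) := by
    exact_mod_cast kap_step (n + 1) J
  have e : n + 1 - J = (n + 1 - (J + 1)) + 1 := by omega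
  unfold Y
  rw [e, pow_succ]
  linear_combination (2 * (-4 : ℚ) ^ (n + 1 - (J + 1)) * ((J : ℚ) + 1)
      * (kap (n + 1) (J + 1) : ℚ)) * h1
      + (2 * (-4 : ℚ) ^ (n + 1 - (J + 1)) * (Nat.choose (2 * n + 1 + J) J : ℚ)
        * (2 * n + 2 + J)) * h2

/-- The WZ telescoping identity, partial sums. -/
theorem wz (n : ℕ) (hn : 1 ≤ n) : ∀ J : ℕ, J ≤ n →
    (2 * (n : ℚ) + 1) * ∑ j ∈ range (J + 1), Y n j - 32 * n * ∑ j ∈ range J, X n j
      = -((2 * n + 1 - 2 * J) * (J ^ 2 - (8 * n + 1) * J - 4 * n ^ 2 - 2 * n)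
          / ((2 * n + J) * (2 * n + J + 1))) * Y n J := by
  have hn0 : (n : ℚ) ≠ 0 := by positivity
  intro J
  induction J with
  | zero =>
    intro _
    have h2 : (2 * (n : ℚ) + 1) ≠ 0 := by positivity
    simp only [zero_add, sum_range_one, range_zero, sum_empty]
    push_cast
    field_simp
    ring
  | succ J ih =>
    intro hJ
    have hJ' : J ≤ n := by omega
    have h := ih hJ'
    rw [sum_range_succ (fun j => Y n j) (J + 1), sum_range_succ (fun j => X n j) J]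
    have r1 := Y_rel1 n J hn hJ'
    have r2 := Y_rel2 n J hJ'
    have p1 : (2 * (n : ℚ) + J) ≠ 0 := by positivity
    have p2 : (2 * (n : ℚ) + J + 1) ≠ 0 := by positivity
    have p3 : (2 * (n : ℚ) + J + 2) ≠ 0 := by positivity
    have p4 : ((J : ℚ) + 1) ≠ 0 := by positivity
    have x1 : X n J = -(Y n J * ((2 * n + 1 - 2 * J) * n))
        / (2 * ((2 * n + J) * (2 * n + J + 1))) := by
      field_simp
      linear_combination r1
    have y1 : Y n (J + 1) = -((2 * n + 2 + J) * (2 * n + 1 - 2 * J) * Y n J)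
        / (2 * ((J : ℚ) + 1) ^ 2) := by
      field_simp
      linear_combination r2
    have goal : (2 * (n : ℚ) + 1) * Y n (J + 1) - 32 * n * X n J
        = (2 * n + 1 - 2 * J) * (J ^ 2 - (8 * n + 1) * J - 4 * n ^ 2 - 2 * n)
          / ((2 * n + J) * (2 * n + J + 1)) * Y n J
        - ((2 * n + 1 - 2 * ((J + 1 : ℕ) : ℚ)) * (((J + 1 : ℕ) : ℚ) ^ 2
            - (8 * n + 1) * ((J + 1 : ℕ) : ℚ) - 4 * n ^ 2 - 2 * n)
          / ((2 * n + ((J + 1 : ℕ) : ℚ)) * (2 * n + ((J + 1 : ℕ) : ℚ) + 1))) * Y n (J + 1) := by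
      have p5 : (2 * (n : ℚ) + (J + 1)) ≠ 0 := by positivity
      have p6 : (2 * (n : ℚ) + (J + 1) + 1) ≠ 0 := by positivity
      rw [x1, y1]
      push_cast
      field_simp
      ring
    linear_combination h + goal

theorem D_cast (n : ℕ) : ((D n : ℤ) : ℚ) = ∑ j ∈ range n, X n j := by
  unfold D X
  push_cast
  rfl

theorem D_succ_cast (n : ℕ) : ((D (n + 1) : ℤ) : ℚ) = ∑ j ∈ range (n + 1), Y n j := by
  unfold D Y
  push_cast
  apply sum_congr rfl
  intro j _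
  have e : 2 * (n + 1) + j - 1 = 2 * n + 1 + j := by omega
  rw [e]

/-- `C(3n+1,n) (2n+1) = (3n+1) C(3n,n)`. -/
theorem choose_rel3 (n : ℕ) :
    (Nat.choose (2 * n + 1 + n) n : ℚ) * (2 * n + 1) = (3 * n + 1) * (Nat.choose (3 * n) n : ℚ) := by
  have h := Nat.choose_mul_succ_eq (3 * n) n
  have e : 3 * n + 1 - n = 2 * n + 1 := by omega
  rw [e] at h
  have e2 : 2 * n + 1 + n = 3 * n + 1 := by omega
  rw [e2]
  have h' : (Nat.choose (3 * n) n : ℚ) * (3 * n + 1)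
      = (Nat.choose (3 * n + 1) n : ℚ) * (2 * n + 1) := by exact_mod_cast h
  linear_combination -h'

/-- The recurrence for `D`. -/
theorem D_rec (n : ℕ) (hn : 1 ≤ n) :
    (2 * (n : ℚ) + 1) * (D (n + 1) : ℚ) = 32 * n * (D n : ℚ)
      - 4 / 3 * (11 * n + 3) * (Nat.centralBinom n : ℚ) * (Nat.choose (3 * n) n : ℚ) := by
  have h := wz n hn n le_rfl
  rw [← D_succ_cast, ← D_cast] at h
  have hk : (2 * (n : ℚ) + 1 - 2 * n) * (kap (n + 1) n : ℚ) = (2 * n + 1) * (kap n n : ℚ) := by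
    exact_mod_cast kap_up n n
  have hk2 : (kap (n + 1) n : ℚ) = (2 * n + 1) * (Nat.centralBinom n : ℚ) := by
    rw [kap_self] at hk
    push_cast at hk
    linear_combination hk
  have hY : Y n n = -4 * (3 * n + 1) * (Nat.choose (3 * n) n : ℚ) * (Nat.centralBinom n : ℚ) := by
    unfold Y
    have e : n + 1 - n = 1 := by omega
    rw [e, hk2]
    have h3 := choose_rel3 n
    linear_combination (-4 * (Nat.centralBinom n : ℚ)) * h3
  rw [hY] at h
  have hn0 : (n : ℚ) ≠ 0 := by positivity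
  have p1 : (2 * (n : ℚ) + n) ≠ 0 := by positivity
  have p2 : (2 * (n : ℚ) + n + 1) ≠ 0 := by positivity
  have e : -((2 * (n : ℚ) + 1 - 2 * n) * ((n : ℚ) ^ 2 - (8 * n + 1) * n - 4 * n ^ 2 - 2 * n)
          / ((2 * n + n) * (2 * n + n + 1)))
        * (-4 * (3 * n + 1) * (Nat.choose (3 * n) n : ℚ) * (Nat.centralBinom n : ℚ))
      = - (4 / 3 * (11 * n + 3) * (Nat.centralBinom n : ℚ) * (Nat.choose (3 * n) n : ℚ)) := by
    field_simp
    ring
  linear_combination h + e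

/-- The sum in the problem. -/
def S (n : ℕ) : ℕ :=
  ∑ k ∈ range n, (11 * k + 3) * (Nat.choose (2 * k) k) ^ 2 * Nat.choose (3 * k) k * 64 ^ (n - 1 - k)

theorem S_succ (n : ℕ) :
    S (n + 1) = 64 * S n + (11 * n + 3) * (Nat.choose (2 * n) n) ^ 2 * Nat.choose (3 * n) n := by
  unfold S
  rw [sum_range_succ, mul_sum]
  congr 1
  · apply sum_congr rfl
    intro k hk
    have hk' : k < n := mem_range.mp hk
    have e : n + 1 - 1 - k = (n - 1 - k) + 1 := by omega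
    rw [e, pow_succ]
    ring
  · have e : n + 1 - 1 - n = 0 := by omega
    rw [e]
    ring

/-- `8 S_n = -3 n C(2n,n) D_n`. -/
theorem S_eq (n : ℕ) : 8 * (S (n + 1) : ℚ)
    = -3 * (n + 1) * (Nat.centralBinom (n + 1) : ℚ) * (D (n + 1) : ℚ) := by
  induction n with
  | zero =>
    simp [S, D, kap, Nat.centralBinom]
    norm_num [Nat.choose]
  | succ n ih =>
    rw [S_succ]
    have h := D_rec (n + 1) (by omega)
    have hc := Nat.succ_mul_centralBinom_succ (n + 1)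
    have hc' : (((n : ℚ) + 1) + 1) * (Nat.centralBinom (n + 1 + 1) : ℚ)
        = 2 * (2 * ((n : ℚ) + 1) + 1) * (Nat.centralBinom (n + 1) : ℚ) := by exact_mod_cast hc
    rw [← Nat.centralBinom_eq_two_mul_choose]
    push_cast at h ih ⊢
    linear_combination 64 * ih + 3 * (D (n + 1 + 1) : ℚ) * hc'
      + 6 * (Nat.centralBinom (n + 1) : ℚ) * h

/-- `2n+1` divides `C(3n,n)`. -/
theorem dvd_choose (n : ℕ) : (2 * (n : ℤ) + 1) ∣ (Nat.choose (3 * n) n : ℤ) := by
  cases n with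
  | zero => simp
  | succ n =>
    have h := Nat.choose_succ_right_eq (3 * (n + 1)) n
    have e : 3 * (n + 1) - n = 2 * (n + 1) + 1 := by omega
    rw [e] at h
    have h' : (Nat.choose (3 * (n + 1)) (n + 1) : ℤ) * (n + 1)
        = (Nat.choose (3 * (n + 1)) n : ℤ) * (2 * (n + 1) + 1) := by exact_mod_cast h
    have hcop : IsCoprime (2 * ((n + 1 : ℕ) : ℤ) + 1) ((n : ℤ) + 1) :=
      ⟨1, -2, by push_cast; ring⟩
    apply hcop.dvd_of_dvd_mul_right
    rw [h']
    push_cast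
    exact Dvd.intro_left _ rfl

/-- Summation by parts: `2n E_n` is a multiple of `2n+1`, where `E_n` is the sum with the last term
`j = n` included. -/
theorem abel (n : ℕ) : ∀ J : ℕ, J ≤ n →
    (2 * (n : ℤ)) * ∑ j ∈ range (J + 1),
        (-4) ^ (n - j) * (Nat.choose (2 * n + j - 1) j : ℤ) * kap n j
      = (2 * n) * ((-4) ^ (n - J) * (Nat.choose (2 * n + J) J : ℤ) * kap n J)
        - 2 * (2 * n + 1) * ∑ j ∈ range J,
          (-4) ^ (n - (j + 1)) * (Nat.choose (2 * n + j) (j + 1) : ℤ) * kap n j := by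
  intro J
  induction J with
  | zero =>
    intro _
    simp
  | succ J ih =>
    intro hJ
    have h := ih (by omega)
    rw [sum_range_succ _ (J + 1), mul_add, h]
    rw [sum_range_succ (fun j => (-4) ^ (n - (j + 1)) * (Nat.choose (2 * n + j) (j + 1) : ℤ)
      * kap n j) J]
    have e : n - J = (n - (J + 1)) + 1 := by omega
    have e2 : 2 * n + (J + 1) - 1 = 2 * n + J := by omega
    rw [e, pow_succ, e2]
    have e3 : 2 * n + (J + 1) = 2 * n + J + 1 := by omega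
    rw [e3, Nat.choose_succ_succ]
    have hd := kap_diag n J
    rw [kap_succ_succ] at hd
    have hc := Nat.choose_succ_right_eq (2 * n + J) J
    have e4 : 2 * n + J - J = 2 * n := by omega
    rw [e4] at hc
    have hc' : (Nat.choose (2 * n + J) (J + 1) : ℤ) * (J + 1)
      = (Nat.choose (2 * n + J) J : ℤ) * (2 * n) := by exact_mod_cast hc
    push_cast
    have key : (2 * (n : ℤ)) * (Nat.choose (2 * n + J) J : ℤ) * (kap n (J + 1) + 4 * kap n J)
        = 2 * (2 * n + 1) * (Nat.choose (2 * n + J) (J + 1) : ℤ) * kap n J := by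
      have hJ0 : ((J : ℤ) + 1) ≠ 0 := by positivity
      apply mul_left_cancel₀ hJ0
      linear_combination (2 * (n : ℤ)) * (Nat.choose (2 * n + J) J : ℤ) * hd
        - 2 * (2 * n + 1) * kap n J * hc'
    linear_combination (-(-4 : ℤ) ^ (n - (J + 1))) * key

/-- `2n+1` divides `3 D n`. -/
theorem dvd_three_D (n : ℕ) (hn : 1 ≤ n) : (2 * (n : ℤ) + 1) ∣ 3 * D n := by
  have h := abel n n le_rfl
  rw [sum_range_succ] at h
  have hD : ∑ j ∈ range n, (-4 : ℤ) ^ (n - j) * (Nat.choose (2 * n + j - 1) j : ℤ) * kap n j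
      = D n := rfl
  rw [hD] at h
  simp only [Nat.sub_self, pow_zero, one_mul] at h
  obtain ⟨c, hc⟩ := dvd_choose n
  have e : 2 * n + n = 3 * n := by omega
  rw [e, hc] at h
  -- `3 C(3n-1, n) = 2 C(3n, n)`
  have h3 : (Nat.choose (3 * n - 1) n : ℤ) * (3 * n) = (Nat.choose (3 * n) n : ℤ) * (2 * n) := by
    have := Nat.choose_mul_succ_eq (3 * n - 1) n
    have e1 : 3 * n - 1 + 1 = 3 * n := by omega
    have e2 : 3 * n - n = 2 * n := by omega
    rw [e1, e2] at this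
    exact_mod_cast this
  rw [hc] at h3
  have hn0 : (n : ℤ) ≠ 0 := by positivity
  have h4 : 3 * (Nat.choose (3 * n - 1) n : ℤ) = 2 * ((2 * n + 1) * c) := by
    apply mul_left_cancel₀ hn0
    linear_combination h3
  have hcop : IsCoprime (2 * (n : ℤ) + 1) (2 * (n : ℤ)) := ⟨1, -1, by ring⟩
  apply hcop.dvd_of_dvd_mul_left
  refine ⟨(2 * n) * (3 * (c * kap n n)) - 2 * 3 * (∑ j ∈ range n,
          (-4) ^ (n - (j + 1)) * (Nat.choose (2 * n + j) (j + 1) : ℤ) * kap n j)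
          - (2 * n) * (2 * c * kap n n), ?_⟩
  linear_combination 3 * h - (2 * (n : ℤ)) * kap n n * h4

/-- `8` divides `D n` for `n ≥ 2`. -/
theorem eight_dvd_D (n : ℕ) (hn : 2 ≤ n) : (8 : ℤ) ∣ D n := by
  unfold D
  apply dvd_sum
  intro j hj
  have hj' : j < n := mem_range.mp hj
  by_cases h : j + 2 ≤ n
  · have e : n - j = (n - j - 2) + 2 := by omega
    rw [e, pow_add, mul_assoc, mul_assoc]
    apply Dvd.dvd.mul_left
    apply Dvd.dvd.mul_right
    norm_num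
  · have e : n - j = 1 := by omega
    obtain ⟨i, rfl⟩ : ∃ i, j = i + 1 := ⟨j - 1, by omega⟩
    rw [e]
    obtain ⟨c, hc⟩ := kap_even n i
    rw [hc]
    exact ⟨-(Nat.choose (2 * n + (i + 1) - 1) (i + 1) : ℤ) * c, by ring⟩

/-- For every `n ≥ 2`, `n (2n+1) C(2n,n)` divides
`∑_{k<n} (11k+3) C(2k,k)^2 C(3k,k) 64^(n-1-k)`. -/
theorem result : ∀ n : ℕ, 2 ≤ n →
    n * (2 * n + 1) * Nat.choose (2 * n) n ∣
      ∑ k ∈ Finset.range n,
        (11 * k + 3) * (Nat.choose (2 * k) k) ^ 2 * Nat.choose (3 * k) k * 64 ^ (n - 1 - k) := by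
  intro n hn
  obtain ⟨m, rfl⟩ := Nat.exists_eq_add_of_le' (show 1 ≤ n by omega)
  have hS := S_eq m
  have h3 := dvd_three_D (m + 1) (by omega)
  have h8 : (8 : ℤ) ∣ 3 * D (m + 1) := Dvd.dvd.mul_left (eight_dvd_D (m + 1) hn) 3
  have hcop : IsCoprime (2 * ((m + 1 : ℕ) : ℤ) + 1) (8 : ℤ) := by
    have h2 : IsCoprime (2 * ((m + 1 : ℕ) : ℤ) + 1) (2 : ℤ) :=
      ⟨1, -((m + 1 : ℕ) : ℤ), by ring⟩
    have : (8 : ℤ) = 2 ^ 3 := by norm_num
    rw [this]
    exact h2.pow_right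
  obtain ⟨c, hc⟩ := hcop.mul_dvd h3 h8
  have hSZ : 8 * (S (m + 1) : ℤ)
      = -3 * ((m + 1 : ℕ) : ℤ) * (Nat.centralBinom (m + 1) : ℤ) * D (m + 1) := by
    have : ((8 * (S (m + 1) : ℤ) : ℤ) : ℚ)
      = ((-3 * ((m + 1 : ℕ) : ℤ) * (Nat.centralBinom (m + 1) : ℤ) * D (m + 1) : ℤ) : ℚ) := by
      push_cast
      linear_combination hS
    exact_mod_cast this
  have hdvd : (((m + 1) * (2 * (m + 1) + 1) * Nat.choose (2 * (m + 1)) (m + 1) : ℕ) : ℤ)
      ∣ (S (m + 1) : ℤ) := by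
    refine ⟨-c, ?_⟩
    rw [← Nat.centralBinom_eq_two_mul_choose]
    have h8' : (8 : ℤ) ≠ 0 := by norm_num
    apply mul_left_cancel₀ h8'
    rw [hSZ]
    push_cast at hc ⊢
    linear_combination (-((m : ℤ) + 1) * (Nat.centralBinom (m + 1) : ℤ)) * hc
  have := Int.natCast_dvd_natCast.mp hdvd
  exact this

end Pool.Agent.Results.MP_550cbf_nt.SunDivisibility
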